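import Mathlib
import Pool.Agent.H892.KT.Stm

/-!
# Project KT, job PHI: `id + w` is a local biholomorphism
-/

set_option autoImplicit false

open Filter Topology Set

namespace Pool.Agent.H286.KT

open Pool.Agent.H892.KT

/-- `id + B` is invertible if `‖B‖ ≤ 1 / 2` -/
theorem inv_id_add (B : (ℂ × ℂ) →L[ℂ] (ℂ × ℂ)) (hB : ‖B‖ ≤ 1 / 2) :
    ∃ A : (ℂ × ℂ) ≃L[ℂ] (ℂ × ℂ),
      (A : (ℂ × ℂ) →L[ℂ] (ℂ × ℂ)) = ContinuousLinearMap.id ℂ (ℂ × ℂ) + B := by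
  have hinj : Function.Injective ((ContinuousLinearMap.id ℂ (ℂ × ℂ) + B : (ℂ × ℂ) →L[ℂ] (ℂ × ℂ)) :
      (ℂ × ℂ) →ₗ[ℂ] (ℂ × ℂ)) := by
    rw [injective_iff_map_eq_zero]
    intro v hv
    have h1 : v + B v = 0 := hv
    have h2 : v = -B v := eq_neg_of_add_eq_zero_left h1
    have h3 : ‖v‖ ≤ 1 / 2 * ‖v‖ := by
      calc ‖v‖ = ‖B v‖ := by
            conv_lhs => rw [h2]
            rw [norm_neg]
        _ ≤ ‖B‖ * ‖v‖ := B.le_opNorm v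
        _ ≤ 1 / 2 * ‖v‖ := mul_le_mul_of_nonneg_right hB (norm_nonneg v)
    have h4 : ‖v‖ ≤ 0 := by linarith
    exact norm_le_zero_iff.1 h4
  refine ⟨(LinearEquiv.ofInjectiveEndo _ hinj).toContinuousLinearEquiv, ?_⟩
  rfl

theorem t_PHI : S_PHI := by
  intro n K D i y hy
  have hyb : y ∈ Metric.ball (0 : ℂ × ℂ) D.r := by
    rw [mem_ball_zero_iff]
    exact hy
  have hd : DifferentiableAt ℂ (D.w i) y :=
    (D.w_diff i).differentiableAt (Metric.isOpen_ball.mem_nhds hyb)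
  obtain ⟨A, hA⟩ := inv_id_add (fderiv ℂ (D.w i) y) (D.w_fd i y hyb)
  refine ⟨A, ?_⟩
  rw [hA]
  have h1 : HasFDerivAt (fun y => y + D.w i y)
      (ContinuousLinearMap.id ℂ (ℂ × ℂ) + fderiv ℂ (D.w i) y) y :=
    (hasFDerivAt_id y).add hd.hasFDerivAt
  exact h1.fderiv

end Pool.Agent.H286.KT
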